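import Mathlib
import Pool.Agent.H80Z.AroDefs
import Pool.Agent.H80Z.AroMain

namespace Pool.Agent.Results.MP_1b6412_co.EveryAronszajn

open Pool.Agent.H80Z.Aro

universe u

/-- Every Aronszajn tree graph has as a minor an `(ℵ₀, ℵ₁)`-graph or a graph `G_{ω₁}(S)` with
`S` stationary. -/
theorem result {T : Type u} [PartialOrder T] (hT : IsAronszajn T) (G : SimpleGraph T)
    (hG : IsTGraph (fun s t : T => s < t) G) :
    (∃ (W : Type u) (H : SimpleGraph W), IsAleph01Graph H ∧ IsMinor H G) ∨
    (∃ (U : Set (Seq Om)) (H : SimpleGraph U), IsStatGraph U H ∧ IsMinor H G) :=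
  main hT G hG

end Pool.Agent.Results.MP_1b6412_co.EveryAronszajn
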